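import Pool.Agent.H88.Force2

set_option autoImplicit false

namespace Pool.Agent.Results.MP_b0cea1_an.AllL

open Pool.Agent.H88.Force

theorem result : ∃ K : Set ℂ, K ⊆ {z : ℂ | 0 < z.im} ∧
    (∀ f : ℂ → ℂ, DifferentiableOn ℂ f {z : ℂ | 0 < z.im} → Set.InjOn f {z : ℂ | 0 < z.im} →
      Set.MapsTo f {z : ℂ | 0 < z.im} (Metric.ball (0 : ℂ) 1) →
      ∀ α : ℂ, Filter.Tendsto f (nhdsWithin 0 K) (nhds α) → ∀ θ : ℝ, 0 < θ → θ < Real.pi / 2 →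
        Filter.Tendsto f
          (nhdsWithin 0 {z : ℂ | z ≠ 0 ∧ θ ≤ Complex.arg z ∧ Complex.arg z ≤ Real.pi - θ})
          (nhds α)) ∧
    ∀ l c : ℝ, 0 < c → ∃ δ : ℝ, 0 < δ ∧ ∀ r : ℝ, 0 < r → r < δ →
      (MeasureTheory.volume (((fun z : ℂ => ‖z‖) '' {z : ℂ | 0 < z.im ∧ ∃ w ∈ K,
          2 * Real.arsinh (‖z - w‖ / (2 * Real.sqrt (z.im * w.im))) < l})
        ∩ Set.Ioo (0 : ℝ) r)).toReal < c * r :=
  ⟨KK, KK_sub, fun _ h1 h2 h3 _ hα _ t1 t2 => Nice.forcing ⟨h1, h2, h3⟩ hα t1 t2,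
    fun l _ hc => thin l hc⟩

end Pool.Agent.Results.MP_b0cea1_an.AllL
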